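import Pool.Agent.H.MP_770c06_an.B

set_option autoImplicit false

namespace Pool.Agent.Results.MP_770c06_an.No

open Set Metric Filter Topology InnerProductSpace
open scoped RealInnerProductSpace

abbrev R3 := EuclideanSpace ℝ (Fin 3)

/-- linearly accessible open set -/
def LinAcc (U : Set R3) : Prop :=
  IsOpen U ∧ ∀ y ∉ U, ∃ v : R3, ‖v‖ = 1 ∧ ∀ s : ℝ, 0 ≤ s → y + s • v ∉ U

/-- superharmonic function on `D` -/
def SuperH (D : Set R3) (v : R3 → EReal) : Prop :=
  LowerSemicontinuousOn v D ∧ (∀ x ∈ D, v x ≠ ⊥) ∧ (∃ x ∈ D, v x ≠ ⊤) ∧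
    ∀ (z : R3) (ρ : ℝ), 0 < ρ → closedBall z ρ ⊆ D → ∀ k : R3 → ℝ,
      ContinuousOn k (closedBall z ρ) → HarmonicOnNhd k (ball z ρ) →
        (∀ x ∈ sphere z ρ, (k x : EReal) ≤ v x) → ∀ x ∈ ball z ρ, (k x : EReal) ≤ v x

/-- positive superharmonic with the singularity of the fundamental solution at `a` -/
def Cand (D : Set R3) (a : R3) (v : R3 → EReal) : Prop :=
  SuperH D v ∧ (∀ x ∈ D, 0 < v x) ∧
    ∃ k : R3 → ℝ, HarmonicAt k a ∧ ∀ᶠ x in 𝓝[≠] a, v x = ((‖x - a‖⁻¹ + k x : ℝ) : EReal)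

/-- the Green function of `D` with pole at `a` -/
def IsGreen (D : Set R3) (a : R3) (g : R3 → EReal) : Prop :=
  Cand D a g ∧ ∀ v, Cand D a v → ∀ x ∈ D, g x ≤ v x

open H.MP_770c06_an

open Classical in
noncomputable def G (x : R3) : EReal := if x = p then ⊤ else (u x : EReal)

lemma G_ne {x : R3} (h : x ≠ p) : G x = u x := if_neg h

lemma G_ev {x : R3} (h : x ≠ p) : ∀ᶠ y in 𝓝 x, G y = u y :=
  (eventually_ne_nhds h).mono fun _ hy => G_ne hy

lemma blow (c : ℝ) : ∀ᶠ x in 𝓝[≠] p, c < ‖x - p‖⁻¹ :=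
  (tendsto_inv_nhdsGT_zero.comp (tendsto_norm_sub_self_nhdsNE p)).eventually (eventually_gt_atTop c)

lemma G_lsc : LowerSemicontinuousOn G D := fun x hx y (hy : y < G x) => by
  refine mem_nhdsWithin_of_mem_nhds (show ∀ᶠ z in 𝓝 x, y < G z from ?_)
  by_cases e : x = p
  · subst e
    obtain ⟨c, hc, -⟩ := EReal.lt_iff_exists_real_btwn.1 hy
    have h1 := (harm_h p hx.2.1).1.continuousAt.eventually (gt_mem_nhds (lt_add_one _))
    have h2 := eventually_nhdsWithin_iff.1 (blow (c + (h p + 1)))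
    filter_upwards [h1, h2] with z z1 z2
    by_cases e : z = p
    · exact e ▸ hy
    · refine (hc.trans (EReal.coe_lt_coe_iff.2 ?_)).trans_eq (G_ne e).symm
      have := z2 e
      unfold u; linarith
  · rw [G_ne e] at hy
    filter_upwards [G_ev e, (continuous_coe_real_ereal.continuousAt.comp
      (harm_u x ⟨hx.2.1, e⟩).1.continuousAt).eventually (lt_mem_nhds hy)] with z z1 z2
    exact z1 ▸ z2

lemma G_bot (x : R3) : G x ≠ ⊥ := by unfold G; split_ifs <;> simp

lemma cand : Cand D p G := by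
  refine ⟨⟨G_lsc, fun x _ => G_bot x, ?_, fun z ρ hρ hs k k1 k2 k3 => ?_⟩, fun x hx => ?_,
    -h, (harm_h p p_mem.2.1).neg, ?_⟩
  · obtain ⟨s, -, h1, h2, -⟩ := block e0 (by simp [e0])
    exact ⟨_, h1, by simp [G_ne h2]⟩
  · have hb : ball z ρ ⊆ D := ball_subset_closedBall.trans hs
    refine minp isOpen_ball isBounded_ball (G_lsc.mono hb) k2.continuousOn (fun x _ => G_bot x)
      (fun w hw ε hε m e hm => ?_) fun b hb' η hη => ?_
    · have hp : w ≠ p := fun e' => by simp [e', G, -EReal.coe_add] at e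
      refine notouch ((k2 w hw).sub (harm_u w ⟨(hb hw).2.1, hp⟩)) hε ?_
      rw [G_ne hp, EReal.coe_eq_coe_iff] at e
      filter_upwards [isOpen_ball.mem_nhds hw, G_ev hp] with x x1 x2
      have := hm x x1
      rw [x2, EReal.coe_le_coe_iff] at this
      simp only [Pi.sub_apply]
      linarith
    · rw [frontier_ball z hρ.ne'] at hb'
      have h1 := G_lsc b (hs (sphere_subset_closedBall hb')) ((k b - η / 2 : ℝ) : EReal)
        ((EReal.coe_lt_coe_iff.2 (by linarith)).trans_le (k3 b hb'))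
      have h2 := ((k1 b (sphere_subset_closedBall hb')).mono ball_subset_closedBall).eventually
        (gt_mem_nhds (show k b < k b + η / 2 by linarith))
      filter_upwards [h1.filter_mono (nhdsWithin_mono _ hb), h2] with x x1 x2
      exact (EReal.coe_le_coe_iff.2 (by linarith)).trans x1.le
  · by_cases e : x = p
    · simp [e, G]
    · rw [G_ne e]
      exact_mod_cast (u_pos e).2 hx.2.2
  · exact eventually_nhdsWithin_of_forall fun x hx => G_ne hx

lemma least (v : R3 → EReal) (hv : Cand D p v) : ∀ x ∈ D, G x ≤ v x := by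
  obtain ⟨⟨v1, v2, -, v4⟩, v5, k, k1, k2⟩ := hv
  have o : IsOpen (D \ {p}) := D_open.sdiff isClosed_singleton
  have key : ∀ δ > 0, ∀ x ∈ D \ {p}, ((u x - δ * ‖x - p‖⁻¹ : ℝ) : EReal) ≤ v x := fun δ hδ => by
    have hw : HarmonicOnNhd (fun x => u x - δ * ‖x - p‖⁻¹) (D \ {p}) :=
      (harm_u.mono fun x hx => ⟨hx.1.2.1, hx.2⟩).sub
        (((harm_inv p).mono fun x hx => hx.2).const_smul (c := δ))
    refine minp o (D_bdd.subset fun x hx => hx.1) (v1.mono fun x hx => hx.1) hw.continuousOn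
      (fun x hx => v2 x hx.1) (fun z hz ε hε m e hm => ?_) fun b hb η hη => ?_
    · obtain ⟨ρ, ρ0, hρ⟩ := nhds_basis_closedBall.mem_iff.1 (o.mem_nhds hz)
      have ha := (hw.mono hρ).add ((harm_aff (m + ε * (ρ ^ 2 - ‖z‖ ^ 2)) ((2 * ε) • z)).mono
        (subset_univ _))
      have := v4 z ρ ρ0 (hρ.trans fun x hx => hx.1) _ ha.continuousOn
        (ha.mono ball_subset_closedBall) (fun x hx => le_of_eq_of_le ?_
          (hm x (hρ (sphere_subset_closedBall hx)))) z (mem_ball_self ρ0)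
      · rw [e, EReal.coe_le_coe_iff] at this
        simp only [Pi.add_apply, real_inner_smul_left, real_inner_self_eq_norm_sq] at this
        nlinarith [mul_pos hε (pow_pos ρ0 2)]
      · congr 1
        rw [← mem_sphere_iff_norm.1 hx, norm_sub_sq_real]
        simp only [Pi.add_apply, real_inner_smul_left, real_inner_comm z]
        ring
    · by_cases e : b = p
      · subst e
        have h1 := ((harm_h p p_mem.2.1).add k1).1.continuousAt.eventually
          (lt_mem_nhds (sub_one_lt _))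
        have m : 𝓝[D \ {p}] p ≤ 𝓝[≠] p := nhdsWithin_mono _ fun x hx => hx.2
        filter_upwards [mem_nhdsWithin_of_mem_nhds h1, m k2,
          m (blow ((1 - (h + k) p) / δ))] with x x1 x2 x3
        rw [show v x = _ from x2, EReal.coe_le_coe_iff, u]
        have x4 : (1 - (h + k) p) / δ < ‖x - p‖⁻¹ := x3
        rw [div_lt_iff₀ hδ] at x4
        simp only [Pi.add_apply] at x1 x4
        linarith
      · rw [o.frontier_eq] at hb
        filter_upwards [(bd_D (closure_mono (fun x hx => hx.1) hb.1) (fun h => hb.2 ⟨h, e⟩)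
          hη).filter_mono (nhdsWithin_mono _ fun x hx => hx.1), self_mem_nhdsWithin] with x x1 x2
        refine le_trans ?_ (v5 x x2.1).le
        have : 0 ≤ δ * ‖x - p‖⁻¹ := by positivity
        exact_mod_cast (by linarith : u x - δ * ‖x - p‖⁻¹ - η ≤ 0)
  intro x hx
  by_cases e : x = p
  · subst e
    refine (EReal.eq_top_iff_forall_lt _ |>.2 fun c => ?_).ge.trans' le_top
    have h1 := k1.1.continuousAt.eventually (lt_mem_nhds (sub_one_lt _))
    obtain ⟨ρ, ρ0, hρ⟩ := nhds_basis_closedBall.mem_iff.1 ((eventually_nhdsWithin_iff.1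
      (k2.and (blow (c + 2 - k p)))).and (h1.and (D_open.mem_nhds hx)))
    refine (EReal.coe_lt_coe_iff.2 (lt_add_one c)).trans_le (v4 p ρ ρ0 (fun y hy => (hρ hy).2.2)
      (fun _ => c + 1) continuousOn_const (harmonicOnNhd_const _) (fun y hy => ?_) p
      (mem_ball_self ρ0))
    obtain ⟨y1, y2, -⟩ := hρ (sphere_subset_closedBall hy)
    obtain ⟨y3, y4⟩ := y1 (ne_of_mem_sphere hy ρ0.ne')
    rw [y3, EReal.coe_le_coe_iff]
    linarith
  · rw [G_ne e]
    have t1 : Tendsto (fun δ : ℝ => ((u x - δ * ‖x - p‖⁻¹ : ℝ) : EReal)) (𝓝[>] 0)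
        (𝓝 ((u x - 0 * ‖x - p‖⁻¹ : ℝ) : EReal)) :=
      (continuous_coe_real_ereal.comp (by fun_prop)).continuousAt.tendsto.mono_left
        nhdsWithin_le_nhds
    rw [zero_mul, sub_zero] at t1
    exact le_of_tendsto t1 (eventually_nhdsWithin_of_forall fun δ hδ => key δ hδ x ⟨hx, e⟩)

theorem result : ∃ (D : Set R3) (a : R3) (g : R3 → EReal) (t : ℝ) (y : R3),
    LinAcc D ∧ IsConnected D ∧ a ∈ D ∧ IsGreen D a g ∧ 0 < t ∧
      y ∉ {x ∈ D | (t : EReal) < g x} ∧
      ∀ v : R3, ‖v‖ = 1 → ∃ s : ℝ, 0 ≤ s ∧ y + s • v ∈ {x ∈ D | (t : EReal) < g x} := by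
  refine ⟨D, p, G, t, Y, ⟨D_open, acc⟩, D_conn, p_mem, ⟨cand, least⟩, by norm_num [t],
    fun h => ?_, fun v hv => ?_⟩
  · have := h.2
    rw [G_ne Y_ne, EReal.coe_lt_coe_iff] at this
    exact absurd uY (not_le.2 this)
  · obtain ⟨s, h0, h1, h2, h3⟩ := block v hv
    exact ⟨s, h0, h1, by rw [G_ne h2]; exact_mod_cast h3⟩

end Pool.Agent.Results.MP_770c06_an.No
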